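import Pool.Agent.Q115.WG5

set_option autoImplicit false

/-!
# The Weisfeiler-Leman dimension of graphs of large girth and large degree

Let `G` be a graph with `n` vertices, without cycles of length at most `2 g`, `g ≥ 2`, in which all
degrees are at least `12 q + 13`, `q ≥ 1`, and let `b = n / q ^ g` (this number is at least `1`).

Part 1: there is a set `S` of at most `6 b (1 + log b) (1 + log n)` vertices such that colour
refinement separates all vertices as soon as the vertices of `S` have colours of their own. So the
Weisfeiler-Leman algorithm in dimension `|S| + 1` decides isomorphism between `G` and any other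
graph, and `G` has at most `n ^ |S|` automorphisms.

Part 2: the dimension is `O(log n)` if all degrees are at least `c n ^ (1 / g)`, that is, if `G` is
extremal up to a constant factor.

Idea of the proof: a vertex on the path of length at most `g` between two separated vertices is
separated. Among the vertices which are not yet separated choose a set `P` with the maximal value of
`e(P) / |P| ^ (1 + ε)`, `ε = log 2 / log n`; it is an expander in a weak sense. The number of the
separated vertices of `P` is multiplied by `1 + q ^ g / |P|` by one suitable vertex of `P`, as long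
as it is less than `q ^ g`, and then by `1 + ε q ^ g / |P|` until more than one half of `P` is
separated. So every separated vertex costs `O((1 + log b) (1 + log n) / q ^ g)` vertices of `S`.
-/

namespace Pool.Agent.Results.MP_f1a348_lc.LargeGirthDimension

open Pool.Agent.W893.PR Pool.Agent.Q115.WG

/-- **The Weisfeiler-Leman dimension of graphs of large girth and large degree.** -/
theorem result :
    (∀ g q : ℕ, 2 ≤ g → 1 ≤ q → ∀ (V : Type) [Fintype V] (G : SimpleGraph V),
      (∀ (v : V) (p : G.Walk v v), p.IsCycle → 2 * g < p.length) →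
      (∀ v, 12 * q + 13 ≤ (G.neighborSet v).ncard) →
      ∃ S : Finset V,
        (S.card : ℝ) ≤ 6 * (Fintype.card V / (q : ℝ) ^ g) *
          (1 + Real.log (Fintype.card V / (q : ℝ) ^ g)) * (1 + Real.log (Fintype.card V)) ∧
        (∀ c : V → ℕ,
          (∀ x y : V, c x = c y → ∀ i : ℕ, ({z | G.Adj x z ∧ c z = i} : Set V).ncard =
            ({z | G.Adj y z ∧ c z = i} : Set V).ncard) →
          (∀ s ∈ S, ∀ x, c x = c s → x = s) → Function.Injective c) ∧
        (∀ k : ℕ, S.card + 1 ≤ k → ∀ (W : Type) [Fintype W] (H : SimpleGraph W),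
          WLEquiv k G H → Nonempty (G ≃g H)) ∧
        Nat.card (G ≃g G) ≤ Fintype.card V ^ S.card) ∧
    (∀ g : ℕ, 2 ≤ g → ∀ c : ℝ, 0 < c → ∃ C : ℝ, ∀ (V : Type) [Fintype V] (G : SimpleGraph V),
      (∀ (v : V) (p : G.Walk v v), p.IsCycle → 2 * g < p.length) →
      (∀ v, c * (Fintype.card V : ℝ) ^ (1 / (g : ℝ)) ≤ ((G.neighborSet v).ncard : ℝ)) →
      ∀ k : ℕ, C * (1 + Real.log (Fintype.card V)) ≤ k →
        ∀ (W : Type) [Fintype W] (H : SimpleGraph W), WLEquiv k G H → Nonempty (G ≃g H)) := by
  constructor
  · intro g q hg2 hq V _ G hg hdeg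
    obtain ⟨S, h1, h2⟩ := main_one g q hg2 hq V G hg hdeg
    refine ⟨S, h1, ?_, fun k hk W _ H h => iso_of_gen G H S h2 k hk h, card_aut G S h2⟩
    intro c hc hS x y hxy
    exact Equitable.gen (κ := ℕ) hc (S := (S : Set V)) (fun s hs => hS s (by exact_mod_cast hs))
      (h2 y) x hxy
  · intro g hg2 c hc
    obtain ⟨C, _, hC⟩ := main_two g hg2 c hc
    refine ⟨C, fun V _ G hg hdeg k hk W _ H h => ?_⟩
    obtain ⟨S, h1, h2⟩ := hC V G hg hdeg
    refine iso_of_gen G H S h2 k ?_ h
    have h3 : ((S.card + 1 : ℕ) : ℝ) ≤ k := by
      push_cast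
      exact h1.trans hk
    exact_mod_cast h3

end Pool.Agent.Results.MP_f1a348_lc.LargeGirthDimension
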