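import Pool.Agent.Q203.GIH.OrbC

set_option autoImplicit false

/-!
# Few or many orbits: a gap problem as hard as graph isomorphism

To find the orbits of the automorphism group of a graph is as hard as graph isomorphism (Mathon).
Here it is shown that this is so even for the most modest question about the orbits: to tell the
graphs on `N` vertices with at most `N ^ ε` orbits from those with at least `N ^ (1 - ε)` orbits.
So no polynomial size circuits approximate the number of orbits within a factor `N ^ (1 - ε)`,
unless graph isomorphism has polynomial size circuits, and in this case the number of orbits can be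
computed exactly. (The factor `N` is trivial.)

Proof. For graphs `G`, `H` on `n` vertices and `k` take one block for every word `x` of `k` bits. The
block has a root joined to all vertices of the graphs `G` (for `x i = 1`) or `H` (for `x i = 0`) in
its slots `i = 1, …, k`; each vertex of slot `i` has also `(i + 1) n` pendant neighbours, so that its
degree tells the slot. If `G` and `H` are isomorphic then all blocks are equivalent, and there are at
most `1 + k n + (k n) ^ 2` orbits. Otherwise the roots of the blocks are in `2 ^ k` different orbits.
-/

namespace Pool.Agent.Results.MP_f1a348_lc.OrbitGap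

open Pool.Agent.Q203.GIH

/-- **Approximating the number of orbits is as hard as graph isomorphism.** -/
theorem result :
    (∀ ε : ℝ, 0 < ε → ε < 1 / 2 → (GIPoly ↔ OrbGapPoly ε)) ∧
    (GIPoly ↔ OrbPoly) ∧
    (∀ (k n : ℕ) (C : Circuit (Fin (bigCard k n) × Fin (bigCard k n))),
      C.OrbGap (1 + (k * n + k * (n * (k * n)) : ℕ)) ((2 : ℝ) ^ k) →
      ∃ C' : Circuit (Var n), C'.size ≤ C.size + 1 ∧ ∀ G H, C'.rel G H ↔ Nonempty (G ≃g H)) ∧
    (∀ (k n : ℕ) (G H : SimpleGraph (Fin n)),
      (Nonempty (G ≃g H) → numOrbits (bigG k G H) ≤ 1 + (k * n + k * (n * (k * n)))) ∧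
      (¬ Nonempty (G ≃g H) → 2 ^ k ≤ numOrbits (bigG k G H))) :=
  ⟨fun _ h1 h2 => ⟨fun h => gap_of_exact h2 (exact_of_poly h),
      fun h => poly_of_orbGap h1 (by linarith) h⟩,
    ⟨exact_of_poly, fun h => poly_of_orbGap (ε := 1 / 4) (by norm_num) (by norm_num)
      (gap_of_exact (by norm_num) h)⟩,
    fun _ _ C hC => circuit_big C hC, fun _ _ _ _ => ⟨few_orbits, many_orbits⟩⟩

end Pool.Agent.Results.MP_f1a348_lc.OrbitGap
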