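import Pool.Agent.Q203.GIH.Rank

set_option autoImplicit false

/-!
# Weisfeiler-Leman dimension and ranks of matrices in the coherent algebra

Let `F` be any field, and let `M` be a matrix obtained from the adjacency matrix `A` of a graph `G`,
the identity matrix and the all-ones matrix by scalar multiples, sums, matrix products and entrywise
products. Suppose that `M` separates the edges from the non-edges at every vertex `x`: if
`M x y = M x z` with `y, z ≠ x`, then `y` and `z` are both adjacent or both non-adjacent to `x`.
If `M` has rank at most `r`, then the `(r + 1)`-dimensional Weisfeiler-Leman algorithm decides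
isomorphism with `G`, which is a test in time `n ^ O(r)`.

Examples are the matrices `A + lam I + mu J` over any field, in particular over the fields of
characteristic `p`: a graph with an eigenvalue (in any field) whose eigenspace has codimension `r`
has Weisfeiler-Leman dimension at most `r + 1`. Other examples are the projections to sums of
eigenspaces. So isomorphism is easy if some separating sum of eigenspaces has small dimension or
small codimension (the theorem of Babai, Grigoryev and Mount needs small multiplicities of all
eigenvalues, and it is not about the Weisfeiler-Leman algorithm).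

Proof: individualize `r` vertices whose rows span the row space of `M`.
-/

namespace Pool.Agent.Results.MP_f1a348_lc.RankDimension

open Pool.Agent.Q203.GIH Pool.Agent.W893.PR

/-- **The Weisfeiler-Leman dimension is at most the rank of a separating matrix plus one.** -/
theorem result :
    (∀ (F : Type) [Field F] (V : Type) [Fintype V] (G : SimpleGraph V) (e : MExpr F) (r : ℕ),
      1 ≤ r → (e.eval G).rank ≤ r →
      (∀ x y z, x ≠ y → x ≠ z → e.eval G x y = e.eval G x z → (G.Adj x y ↔ G.Adj x z)) →
      ∀ (W : Type) [Fintype W] (H : SimpleGraph W), WLEquiv (r + 1) G H → Nonempty (G ≃g H)) ∧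
    (∀ (F : Type) [Field F] (V : Type) [Fintype V] [DecidableEq V] (G : SimpleGraph V)
      [DecidableRel G.Adj] (lam mu : F) (r : ℕ), 1 ≤ r →
      (G.adjMatrix F + lam • (1 : Matrix V V F) + mu • Matrix.of fun _ _ => 1).rank ≤ r →
      ∀ (W : Type) [Fintype W] (H : SimpleGraph W), WLEquiv (r + 1) G H → Nonempty (G ≃g H)) :=
  ⟨fun _ _ _ _ G e r h1 h2 h3 _ _ H h => iso_of_rank G H e h3 r h1 h2 h,
    fun _ _ _ _ _ G _ lam mu r h1 h2 _ _ H h => iso_of_adj_rank G H lam mu r h1 h2 h⟩

end Pool.Agent.Results.MP_f1a348_lc.RankDimension
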