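import Pool.Agent.Q142.PL.Main
import Pool.Agent.Q142.PL.Tight
import Pool.Agent.Q142.PL.Hard

set_option autoImplicit false

/-!
# Graph isomorphism for spectrally pseudorandom graphs

Let `A` be the adjacency matrix of a graph `G` with `n` vertices, and let `J` be the matrix of ones.
The graph is pseudorandom of density one half if the spectral norm of `A - J / 2` is small;
`SpecBound lam G` says that this norm is at most `lam`. It is at least `√n / 2` for every graph, so
graphs with `lam = C √n` are optimal up to a constant factor. The theorem describes what this
property gives for graph isomorphism: `√n` is a threshold, `O(log n)` individualized vertices and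
bounded colour classes are what it gives below the threshold, and this is best possible.

Part 1 (upper bound, all graphs): there is a set `S` of `2 log n / θ + 1` vertices such that the
classes of the vertices with equal adjacencies to `S` have at most `4 lam ^ 2 / ((1 - 2 θ) ^ 2 n)`
vertices. So for `lam = O(√n)` the individualization of `O(log n)` vertices leaves colour classes of
bounded size, without any refinement; as isomorphism of graphs with bounded colour classes is
decidable in polynomial time (Babai; Furst, Hopcroft, Luks), isomorphism of such graphs is
decidable in time `n ^ O(log n)`.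

Part 2: the number `O(log n)` cannot be improved, by no refinement method: in the graph of the
standard bent function, with `n = 4 ^ K` vertices and norm exactly `√n / 2`, for every set `S` some
vertex has `√n / 2 ^ (|S| + 1)` images under the automorphisms which fix all vertices of `S`.

Part 3: nothing of this kind can be expected beyond `√n`: for every `ε > 0` isomorphism of arbitrary
graphs reduces to isomorphism of graphs with `lam = n ^ (1 / 2 + ε)`, by the explicit map `emb`,
which puts a copy of the graph on each vertex of the graph of a bent function.

Part 4: already for `lam = C √n` the combinatorial methods fail. For every odd prime `p` there is a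
constant `C` such that for all `k` there are two non-isomorphic graphs on at most `C k` vertices
with `lam = C √n` which are not distinguished by the `k`-dimensional Weisfeiler-Leman method and by
the `k`-dimensional invertible-map test over all fields in which `p` is not zero, and
individualization-refinement with this test as refinement, any cell selector which is invariant for
the test, and pruning with all invariants of the test and all automorphisms visits at least `2 ^ k`
nodes. (The first statement of Part 4 says that such selectors and leaves exist.) So for optimal
pseudorandom graphs the group-theoretic treatment of the bounded colour classes cannot be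
replaced by refinement, although every set of more than `C'` vertices is split by few vertices.

Idea of the proof of Part 4: a sparse random system of linear equations over `F_p` with local
expansion and a small kernel gives, as in the starting file on tournaments
(`Pool/Agent/Y598/IM/Sp`), a sparse graph whose vertices are the values of the variables (three
copies, which carry the cyclic order) and the solutions of the single equations. Its classes are
placed on the vertices of the graph of a bent function, and the sparse graph is added modulo two to
the blow-up. The shifts by local solutions preserve the blocks, so they preserve the blow-up. The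
blocks are recognized by the similarity of rows; an isomorphism permutes them by an automorphism
of the graph of the bent function, of which there are only `n ^ O(log n)`, and two isomorphisms
with the same action on the blocks differ by a solution of the homogeneous system.
-/

namespace Pool.Agent.Results.MP_f1a348_lc.SpectralThreshold

open Pool.Agent.Q142.PL Pool.Agent.Y598.IM Pool.Agent.W185.SRG

/-- **Graph isomorphism for spectrally pseudorandom graphs.** -/
theorem result :
    (∀ (V : Type) [Fintype V] (G : SimpleGraph V) (lam θ : ℝ), 0 ≤ lam → 0 < θ → θ ≤ 1 / 2 →
      SpecBound lam G → √(Fintype.card V) ≤ 2 * lam ∧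
        ∃ S : Finset V, (S.card : ℝ) ≤ 2 * Real.log (Fintype.card V) / θ + 1 ∧
          ∀ u, (1 - 2 * θ) ^ 2 * (({w | ∀ s ∈ S, G.Adj w s ↔ G.Adj u s} : Set V).ncard *
          Fintype.card V) ≤ 4 * lam ^ 2) ∧
    (∀ K : ℕ, ∃ (V : Type) (_ : Fintype V) (G : SimpleGraph V), Fintype.card V = 4 ^ K ∧
      SpecBound (2 ^ K / 2) G ∧ ∀ S : Finset V, ∃ (u : V) (T : Finset V),
        2 ^ K ≤ 2 ^ (S.card + 1) * T.card ∧
          ∀ w ∈ T, ∃ α : G ≃g G, (∀ s ∈ S, α s = s) ∧ α u = w) ∧
    (∀ ε : ℝ, 0 < ε → ∃ C : ℕ, ∀ t : ℕ, 1 ≤ t → ∃ K : ℕ, t * 4 ^ K ≤ (t + 1) ^ C ∧
      ∀ H : SimpleGraph (Fin t), SpecBound (((t * 4 ^ K : ℕ) : ℝ) ^ (1 / 2 + ε)) (emb K H) ∧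
        ∀ H' : SimpleGraph (Fin t), Nonempty (emb K H ≃g emb K H') ↔ Nonempty (H ≃g H')) ∧
    (∀ p : ℕ, p.Prime → p ≠ 2 →
      (∀ (V : Type) [Fintype V] (j : ℕ), 1 ≤ j →
        (∃ sel : (V → V → Prop) → List V → Set V, IsSelector p j sel) ∧
        ∀ sel : (V → V → Prop) → List V → Set V, IsSelector p j sel →
          ∀ A : V → V → Prop, ∃ v, IsLeaf sel A v) ∧
      ∃ C : ℕ, ∀ k : ℕ, 1 ≤ k →
        ∃ (V : Type) (_ : Fintype V) (G H : SimpleGraph V), Fintype.card V ≤ C * k ∧
          SpecBound (C * √(Fintype.card V)) G ∧ SpecBound (C * √(Fintype.card V)) H ∧
          ¬ Nonempty (G ≃g H) ∧ (∀ j ≤ k, WLEquivalent j G H) ∧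
          ∀ X Y : SimpleGraph V, (X = G ∨ X = H) → (Y = G ∨ Y = H) → ∀ j : ℕ, 1 ≤ j → j ≤ k →
            Indist p j X.Adj [] Y.Adj [] ∧
            ∀ sel : (V → V → Prop) → List V → Set V, IsSelector p j sel →
              ∀ (v : List V) (E : Finset (List V)), IsLeaf sel X.Adj v →
                Explores p j sel X.Adj v Y.Adj E → 2 ^ k ≤ E.card) :=
  ⟨fun _ _ G _ _ h0 h1 h2 h => ⟨spec_opt h0 h, upper G h0 h1 h2 h⟩,
    fun K => ⟨QQ K, inferInstance, bg K, card_QQ K, bg_spec K, tight⟩, complete,
    fun p hp h2 => ⟨fun _ _ _ hj => ⟨exists_isSelector hj, fun _ hsel A => exists_leaf hj hsel A⟩,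
      lower p hp h2⟩⟩

end Pool.Agent.Results.MP_f1a348_lc.SpectralThreshold
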